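import Pool.Agent.helper23.TH.Spec

/-!
MP_26dbae_co: module th:CD (dimension count).
-/

set_option autoImplicit false

open scoped BigOperators

namespace Pool.Agent.helper23.TH

/-- an algebraically independent family of a field generated by `S` has at most `|S|` members -/
theorem CD_td {k₀ F : Type} [Field k₀] [Field F] [Algebra k₀ F] {ι : Type} [Fintype ι]
    (S : Finset F) (x : ι → F) (hx : AlgebraicIndependent k₀ x)
    (hS : ∀ i, x i ∈ IntermediateField.adjoin k₀ (S : Set F)) : Fintype.card ι ≤ S.card := by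
  classical
  set K := IntermediateField.adjoin k₀ (S : Set F) with hK
  set x' : ι → K := fun i => ⟨x i, hS i⟩ with hx'
  have h1 : AlgebraicIndependent k₀ x' := by
    refine AlgebraicIndependent.of_comp K.val ?_
    exact hx
  set s : Set K := {z | (z : F) ∈ S} with hs
  have himg : (K.val : K → F) '' s = (S : Set F) := by
    ext y
    constructor
    · rintro ⟨z, hz, rfl⟩
      exact hz
    · intro hy
      exact ⟨⟨y, IntermediateField.subset_adjoin _ _ hy⟩, hy, rfl⟩
  have hmap : (Algebra.adjoin k₀ s).map K.val = Algebra.adjoin k₀ (S : Set F) := by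
    rw [← himg, AlgHom.map_adjoin]
  have h2 : Algebra.IsAlgebraic (Algebra.adjoin k₀ s) K := by
    constructor
    intro z
    obtain ⟨r, hr, t, ht, hz⟩ := (IntermediateField.mem_adjoin_iff_div).1 z.2
    rw [← hmap] at hr ht
    obtain ⟨r', hr', hrr⟩ := hr
    obtain ⟨t', ht', htt⟩ := ht
    have e : z = algebraMap (Algebra.adjoin k₀ s) K ⟨r', hr'⟩ *
        (algebraMap (Algebra.adjoin k₀ s) K ⟨t', ht'⟩)⁻¹ := by
      apply Subtype.ext
      have e1 : ((algebraMap (Algebra.adjoin k₀ s) K ⟨r', hr'⟩ : K) : F) = r := hrr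
      have e2 : ((algebraMap (Algebra.adjoin k₀ s) K ⟨t', ht'⟩ : K) : F) = t := htt
      rw [hz, IntermediateField.coe_mul, IntermediateField.coe_inv, e1, e2, div_eq_mul_inv]
    rw [e]
    exact (isAlgebraic_algebraMap _).mul (isAlgebraic_algebraMap _).inv
  have h3 : Algebra.trdeg k₀ K ≤ Cardinal.mk s := Algebra.IsAlgebraic.trdeg_le_cardinalMk k₀ s
  have h4 := h1.cardinalMk_le_trdeg
  have h5 := h4.trans h3
  have h6 : Function.Injective (fun z : s => (⟨(z.1 : F), z.2⟩ : S)) := by
    intro z z' h
    apply Subtype.ext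
    apply Subtype.ext
    exact congrArg (fun q : S => (q : F)) h
  have h7 := h5.trans (Cardinal.mk_le_of_injective h6)
  rw [Cardinal.mk_fintype, Cardinal.mk_coe_finset] at h7
  exact_mod_cast h7

/-- completion of a linearly independent family by unit vectors -/
theorem CD_basis {L : Type} [Field L] {M : Type} [Fintype M] [DecidableEq M] {k : ℕ}
    (φ : Fin k → M → L) (hφ : LinearIndependent L φ) : ∃ B : Finset M, k + B.card ≤ Fintype.card M ∧
      ∀ μ : M, Pi.single μ (1 : L) ∈ Submodule.span L
        (Set.range φ ∪ (fun ν : M => (Pi.single ν (1 : L) : M → L)) '' (B : Set M)) := by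
  classical
  set v : Fin k ⊕ M → (M → L) := Sum.elim φ (fun ν : M => (Pi.single ν (1 : L) : M → L)) with hv
  have h0 : LinearIndepOn L v (Set.range Sum.inl) := by
    rw [linearIndepOn_range_iff Sum.inl_injective]
    exact hφ
  obtain ⟨b, -, hb, hspan, hli⟩ := exists_linearIndepOn_extension h0 (Set.subset_univ _)
  set B : Finset M := Finset.univ.filter (fun ν => Sum.inr ν ∈ b) with hB
  refine ⟨B, ?_, ?_⟩
  · have hg : LinearIndependent L (fun q : Fin k ⊕ B => v (Sum.map id (fun z : B => (z : M)) q)) := by
      have h1 : ∀ q : Fin k ⊕ B, Sum.map id (fun z : B => (z : M)) q ∈ b := by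
        rintro (q | q)
        · exact hb ⟨q, rfl⟩
        · exact (Finset.mem_filter.1 q.2).2
      have h2 : Function.Injective
          (fun q : Fin k ⊕ B => (⟨Sum.map id (fun z : B => (z : M)) q, h1 q⟩ : b)) := by
        intro q q' h
        have h' : Sum.map id (fun z : B => (z : M)) q = Sum.map id (fun z : B => (z : M)) q' :=
          congrArg Subtype.val h
        exact Function.Injective.sumMap Function.injective_id Subtype.val_injective h'
      exact LinearIndependent.comp hli _ h2
    have h3 := hg.fintype_card_le_finrank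
    rw [Fintype.card_sum, Fintype.card_fin, Fintype.card_coe, Module.finrank_pi] at h3
    exact h3
  · intro μ
    have h1 : Pi.single μ (1 : L) ∈ Submodule.span L (v '' b) := hspan ⟨Sum.inr μ, trivial, rfl⟩
    refine Submodule.span_mono ?_ h1
    rintro _ ⟨q, hq, rfl⟩
    rcases q with q | q
    · exact Or.inl ⟨q, rfl⟩
    · exact Or.inr ⟨q, by simpa [hB] using hq, rfl⟩

theorem CD (hSEP : SEP_stmt) (hIP : IP_stmt) : CD_stmt := by
  classical
  intro k₀ F _ _ _ h2 b m d a W E hE hEd s y hy hind
  -- the field of the coordinates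
  set SW : Finset F := (W ×ˢ (Finset.univ : Finset (Fin b))).image (fun q => q.1 q.2) with hSW
  have hSWc : SW.card ≤ b * W.card := by
    refine Finset.card_image_le.trans ?_
    rw [Finset.card_product, Finset.card_univ, Fintype.card_fin, mul_comm]
  set L := IntermediateField.adjoin k₀ (SW : Set F) with hL
  have hcoord : ∀ x ∈ W, ∀ i, x i ∈ L := by
    intro x hx i
    refine IntermediateField.subset_adjoin _ _ ?_
    exact Finset.mem_coe.2 (Finset.mem_image.2 ⟨(x, i), by simp [hx], rfl⟩)
  -- enumeration of the edges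
  let k := E.card
  let en : Fin k ≃ E := (E.equivFin).symm
  have hrep : ∀ t : Fin k, ∃ p : (Fin b → F) × (Fin b → F), (en t : Sym2 (Fin b → F)) = s(p.1, p.2) := by
    intro t
    induction' h : (en t : Sym2 (Fin b → F)) using Sym2.ind with x y
    exact ⟨(x, y), rfl⟩
  choose P hP using hrep
  have hPW : ∀ t, (P t).1 ∈ W ∧ (P t).2 ∈ W := by
    intro t
    have h1 := hE _ (en t).2
    rw [hP t] at h1
    exact ⟨h1 _ (Sym2.mem_mk_left _ _), h1 _ (Sym2.mem_mk_right _ _)⟩
  set w : Fin k → Ix b → F := fun t => gg (P t).1 (P t).2 with hw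
  have hwinj : Function.Injective w := by
    intro t t' h
    have h1 := hSEP F h2 b _ _ _ _ h
    rw [← hP t, ← hP t'] at h1
    exact en.injective (Subtype.ext h1)
  have hli := hIP F b d k w hwinj hEd
  -- the vectors over `L`
  have hev : ∀ t μ, ev (d := d) (w t) μ ∈ L := by
    intro t μ
    refine prod_mem (fun i _ => pow_mem ?_ _)
    obtain ⟨h1, h1'⟩ := hPW t
    rcases i with i | ⟨i, j⟩
    · exact add_mem (hcoord _ h1 i) (hcoord _ h1' i)
    · exact add_mem (mul_mem (hcoord _ h1 i) (hcoord _ h1' j)) (mul_mem (hcoord _ h1 j) (hcoord _ h1' i))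
  set φ : Fin k → Mon b d → L := fun t μ => ⟨ev (w t) μ, hev t μ⟩ with hφ
  have hφli : LinearIndependent L φ := by
    rw [Fintype.linearIndependent_iff] at hli ⊢
    intro g hg t
    have h1 := hli (fun t => (g t : F)) (by
      funext μ
      have h2 := congrArg (fun f : Mon b d → L => ((f μ : L) : F)) hg
      simp only [Finset.sum_apply, Pi.smul_apply, smul_eq_mul, Pi.zero_apply] at h2 ⊢
      rw [ZeroMemClass.coe_zero] at h2
      rw [← h2]
      simp [hφ]) t
    exact_mod_cast h1
  obtain ⟨B, hBc, hBs⟩ := CD_basis φ hφli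
  -- the generators
  set SC : Finset F := ((E.image (colS a)) ×ˢ (Finset.univ : Finset (Fin m))).image (fun q => q.1 q.2)
    with hSC
  have hSCc : SC.card ≤ m * (E.image (colS a)).card := by
    refine Finset.card_image_le.trans ?_
    rw [Finset.card_product, Finset.card_univ, Fintype.card_fin, mul_comm]
  set SB : Finset F := ((Finset.univ : Finset (Fin m)) ×ˢ B).image (fun q => a q.1 q.2) with hSB
  have hSBc : SB.card ≤ m * B.card := by
    refine Finset.card_image_le.trans ?_
    rw [Finset.card_product, Finset.card_univ, Fintype.card_fin]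
  set K := IntermediateField.adjoin k₀ ((SW ∪ SC ∪ SB : Finset F) : Set F) with hK
  have hLK : L ≤ K := by
    refine IntermediateField.adjoin.mono _ _ _ ?_
    intro z hz
    simp only [Finset.coe_union]
    exact Or.inl (Or.inl hz)
  have hval : ∀ (j : Fin m) (v : Mon b d → L), v ∈ Submodule.span L
      (Set.range φ ∪ (fun ν : Mon b d => (Pi.single ν (1 : L) : Mon b d → L)) '' (B : Set (Mon b d))) →
      ∑ μ, a j μ * (v μ : F) ∈ K := by
    intro j v hv
    induction hv using Submodule.span_induction with
    | mem v hv =>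
      rcases hv with ⟨t, rfl⟩ | ⟨ν, hν, rfl⟩
      · have h1 : ∑ μ, a j μ * ((φ t μ : L) : F) = colS a (en t : Sym2 (Fin b → F)) j := by
          rw [hP t]
          rfl
        rw [h1]
        refine IntermediateField.subset_adjoin _ _ ?_
        refine Finset.mem_coe.2 (Finset.mem_union.2 (Or.inl (Finset.mem_union.2 (Or.inr ?_))))
        refine Finset.mem_image.2 ⟨(colS a (en t : Sym2 (Fin b → F)), j), ?_, rfl⟩
        exact Finset.mem_product.2 ⟨Finset.mem_image.2 ⟨_, (en t).2, rfl⟩, Finset.mem_univ _⟩
      · have h1 : ∑ μ, a j μ * (((Pi.single ν (1 : L) : Mon b d → L) μ : L) : F) = a j ν := by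
          rw [Finset.sum_eq_single ν]
          · simp
          · intro μ _ hμ
            simp [hμ]
          · simp
        rw [h1]
        refine IntermediateField.subset_adjoin _ _ ?_
        refine Finset.mem_coe.2 (Finset.mem_union.2 (Or.inr ?_))
        exact Finset.mem_image.2 ⟨(j, ν), Finset.mem_product.2 ⟨Finset.mem_univ _, hν⟩, rfl⟩
    | zero => simp [zero_mem]
    | add u v _ _ hu hv =>
      have h1 : ∑ μ, a j μ * (((u + v) μ : L) : F) = ∑ μ, a j μ * (u μ : F) + ∑ μ, a j μ * (v μ : F) := by
        rw [← Finset.sum_add_distrib]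
        refine Finset.sum_congr rfl (fun μ _ => ?_)
        simp [mul_add]
      rw [h1]
      exact add_mem hu hv
    | smul c v _ hv =>
      have h1 : ∑ μ, a j μ * (((c • v) μ : L) : F) = (c : F) * ∑ μ, a j μ * (v μ : F) := by
        rw [Finset.mul_sum]
        refine Finset.sum_congr rfl (fun μ _ => ?_)
        simp
        ring
      rw [h1]
      exact mul_mem (hLK c.2) hv
  have ha : ∀ j μ, a j μ ∈ K := by
    intro j μ
    have h1 := hval j _ (hBs μ)
    rw [Finset.sum_eq_single μ] at h1
    · simpa using h1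
    · intro ν _ hν
      simp [hν]
    · simp
  have hfin := CD_td (SW ∪ SC ∪ SB) _ hind (by
    rintro (⟨j, μ⟩ | t)
    · exact ha j μ
    · obtain ⟨x, hx, i, hi⟩ := hy t
      simp only [Sum.elim_inr]
      rw [hi]
      exact hLK (hcoord x hx i))
  rw [Fintype.card_sum, Fintype.card_prod, Fintype.card_fin, Fintype.card_fin] at hfin
  have h3 : (SW ∪ SC ∪ SB).card ≤ b * W.card + m * (E.image (colS a)).card + m * B.card :=
    (Finset.card_union_le _ _).trans (Nat.add_le_add ((Finset.card_union_le _ _).trans
      (Nat.add_le_add hSWc hSCc)) hSBc)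
  have h4 := Nat.mul_le_mul_left m hBc
  have h5 : m * (k + B.card) = m * E.card + m * B.card := by
    simp only [k]; ring
  omega

end Pool.Agent.helper23.TH
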