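import Pool.Agent.helper48.TH.Spec

set_option autoImplicit false

namespace TP.TW

open DP MeasureTheory Finset

theorem INP (inf : INF_stmt) (prn : PRN_stmt) : INP_stmt := by
  classical
  intro κ T E F Λ A M hE hF hM
  obtain ⟨Ω, hΩ⟩ : ∃ Ω : Finset V, Ω = Λ ∪ T.biUnion A := ⟨_, rfl⟩
  have hΛ : Λ ⊆ Ω := hΩ ▸ subset_union_left
  have hA : ∀ τ ∈ T, A τ ⊆ Ω := fun τ hτ =>
    hΩ ▸ (subset_biUnion_of_mem A hτ).trans subset_union_right
  obtain ⟨e⟩ : Nonempty ({v // v ∈ Ω} ≃ Fin #Ω) := ⟨Ω.equivFin⟩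
  have hε : Function.Injective (fun i : Fin #Ω => ((e.symm i : {v // v ∈ Ω}) : V)) := by
    intro i j h
    exact e.symm.injective (Subtype.ext h)
  obtain ⟨ex, hex⟩ : ∃ ex : (Fin #Ω → Bool) → V → Bool, ∀ x v (h : v ∈ Ω), ex x v = x (e ⟨v, h⟩) :=
    ⟨fun x v => if h : v ∈ Ω then x (e ⟨v, h⟩) else false, fun x v h => dif_pos h⟩
  have hex1 : ∀ (β : V → Bool), ∀ v ∈ Ω, ex (fun i => β (e.symm i : {v // v ∈ Ω})) v = β v := by
    intro β v hv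
    rw [hex _ v hv, Equiv.symm_apply_apply]
  have hex2 : ∀ (B : Finset V), B ⊆ Ω → ∀ x y : Fin #Ω → Bool,
      (∀ i ∈ univ.filter (fun i : Fin #Ω => ((e.symm i : {v // v ∈ Ω}) : V) ∈ B), x i = y i) →
      ∀ v ∈ B, ex x v = ex y v := by
    intro B hB x y hxy v hv
    rw [hex _ v (hB hv), hex _ v (hB hv)]
    apply hxy
    rw [mem_filter, Equiv.symm_apply_apply]
    exact ⟨mem_univ _, hv⟩
  have hmono : ∀ (G : Set (V → Bool)) (B : Finset V), CD G B → B ⊆ Ω → CD G Ω :=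
    fun G B h hB b b' hb => h b b' fun v hv => hb v (hB hv)
  have hPr : ∀ G : Set (V → Bool), CD G Ω → ∀ [DecidablePred fun x : Fin #Ω → Bool => ex x ∈ G],
      Pr G = (#(univ.filter fun x : Fin #Ω → Bool => ex x ∈ G) : ℝ) / 2 ^ #Ω := by
    intro G hG _
    have h1 : G = {β : V → Bool | (fun x => ex x ∈ G) (fun i => β (e.symm i : {v // v ∈ Ω}))} := by
      ext β
      exact (hG _ _ (hex1 β)).symm
    have h2 := prn #Ω (fun i : Fin #Ω => ((e.symm i : {v // v ∈ Ω}) : V)) hε (fun x => ex x ∈ G)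
    rw [← h1] at h2
    rw [h2]
    congr 2
    refine congrArg Finset.card ?_
    ext x
    simp only [mem_filter]
  have hEΩ : CD E Ω := hmono E Λ hE hΛ
  have key := inf #Ω κ T (fun x => ex x ∈ E) (fun τ x => ex x ∈ F τ)
    (univ.filter fun i : Fin #Ω => ((e.symm i : {v // v ∈ Ω}) : V) ∈ Λ)
    (fun τ => univ.filter fun i : Fin #Ω => ((e.symm i : {v // v ∈ Ω}) : V) ∈ A τ) M (Pr E) (hPr E hEΩ)
    (fun x y hxy => hE _ _ (hex2 Λ hΛ x y hxy))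
    (fun τ hτ x y hxy => hF τ hτ _ _ (hex2 (A τ) (hA τ hτ) x y hxy))
    (fun i hi => by
      rw [mem_filter] at hi
      have h1 := hM _ hi.2
      simpa using h1)
  have h1 : ∀ τ ∈ T, Pr (E ∩ F τ) = (#(univ.filter fun x : Fin #Ω → Bool => ex x ∈ E ∧ ex x ∈ F τ) : ℝ) / 2 ^ #Ω := by
    intro τ hτ
    have hFΩ := hmono (F τ) (A τ) (hF τ hτ) (hA τ hτ)
    have h2 : CD (E ∩ F τ) Ω := fun b b' hb => and_congr (hEΩ b b' hb) (hFΩ b b' hb)
    rw [hPr _ h2]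
    rfl
  have h3 : ∀ τ ∈ T, Pr (F τ) = (#(univ.filter fun x : Fin #Ω → Bool => ex x ∈ F τ) : ℝ) / 2 ^ #Ω := by
    intro τ hτ
    exact hPr _ (hmono (F τ) (A τ) (hF τ hτ) (hA τ hτ))
  rw [sum_congr rfl h1, sum_congr rfl h3]
  exact key

end TP.TW
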