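import Pool.Agent.helper48.TH.Spec

/-!
# Row PRN of project TH: finitely many coins are fair and independent (after helper94's BR2)
-/

set_option autoImplicit false

namespace TP.TW

open DP MeasureTheory Finset

theorem PRN_coin (a : Bool) : (PMF.uniformOfFintype Bool).toMeasure {a} = 2⁻¹ := by
  rw [PMF.toMeasure_apply_singleton _ _ (measurableSet_singleton a)]
  simp

/-- The cylinder of `x` as a product set. -/
theorem PRN_cyl (N : ℕ) (ε : Fin N → V) (x : Fin N → Bool) :
    {β : V → Bool | ∀ p, β (ε p) = x p} =
      Set.pi (((univ : Finset (Fin N)).image ε : Finset V) : Set V)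
        (fun v => {y : Bool | ∀ p, ε p = v → y = x p}) := by
  ext β
  simp only [Set.mem_ofPred_eq, Set.mem_pi, Finset.coe_image, Finset.coe_univ, Set.image_univ,
    Set.mem_range, forall_exists_index]
  constructor
  · intro h v p hp q hq
    rw [← hq]
    exact h q
  · intro h p
    exact h (ε p) p rfl p rfl

theorem PRN_cyl_meas (N : ℕ) (ε : Fin N → V) (x : Fin N → Bool) :
    MeasurableSet {β : V → Bool | ∀ p, β (ε p) = x p} := by
  rw [PRN_cyl]
  exact MeasurableSet.pi (Finset.countable_toSet _) (fun v _ => MeasurableSet.of_discrete)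

theorem PRN_cyl_pr (N : ℕ) (ε : Fin N → V) (hε : Function.Injective ε) (x : Fin N → Bool) :
    P1.real {β : V → Bool | ∀ p, β (ε p) = x p} = 1 / 2 ^ N := by
  have h1 : P1 {β : V → Bool | ∀ p, β (ε p) = x p} = 2⁻¹ ^ N := by
    rw [PRN_cyl]
    unfold P1
    rw [Measure.infinitePi_pi _ (fun i _ => MeasurableSet.of_discrete),
      Finset.prod_image (fun p _ q _ h => hε h)]
    have h2 : ∀ p : Fin N, (PMF.uniformOfFintype Bool).toMeasure
        {y : Bool | ∀ q, ε q = ε p → y = x q} = 2⁻¹ := by
      intro p
      rw [← PRN_coin (x p)]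
      congr 1
      ext y
      simp only [Set.mem_ofPred_eq, Set.mem_singleton_iff]
      constructor
      · intro h
        exact h p rfl
      · intro h q hq
        rw [hε hq]
        exact h
    simp only [h2, Finset.prod_const, Finset.card_univ, Fintype.card_fin]
  rw [Measure.real, h1]
  simp

/-- Row PRN. -/
theorem PRN : PRN_stmt := by
  classical
  intro N ε hε P
  have hP : IsProbabilityMeasure P1 := by unfold P1; infer_instance
  have hset : {β : V → Bool | P (fun i => β (ε i))} =
      ⋃ x ∈ (univ : Finset (Fin N → Bool)).filter (fun x => P x),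
        {β : V → Bool | ∀ p, β (ε p) = x p} := by
    ext β
    simp only [Set.mem_ofPred_eq, Finset.mem_filter, Finset.mem_univ, true_and, Set.mem_iUnion,
      exists_prop]
    constructor
    · intro h
      exact ⟨fun p => β (ε p), h, fun p => rfl⟩
    · rintro ⟨x, hx, hβ⟩
      have : (fun p => β (ε p)) = x := funext hβ
      rw [this]
      exact hx
  unfold Pr
  rw [hset, measureReal_biUnion_finset]
  · simp only [PRN_cyl_pr N ε hε, Finset.sum_const, nsmul_eq_mul]
    rw [mul_one_div]
  · intro x _ y _ hxy
    rw [Function.onFun, Set.disjoint_left]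
    intro β h1 h2
    apply hxy
    funext p
    rw [← h1 p, ← h2 p]
  · intro x _
    exact PRN_cyl_meas N ε x

end TP.TW
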